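import Pool.Agent.K3h44.RQ.Stm

/-!
# RQ brick GS: products of quadratic Gauss sums in a cyclotomic field
-/

set_option autoImplicit false

namespace Pool.Agent.K3h73.RQ

open Pool.Agent.K3h44.RQ NumberField

/-- the case of a prime -/
theorem gs_prime (q : ℕ) [hq : Fact q.Prime] (hq2 : q % 2 = 1) (m : ℕ) [NeZero m] (hqm : q ∣ m)
    (F : Type) [Field F] [NumberField F] (c : CycM m F) : ∃ r : F,
    r ^ 2 = (-1) ^ (q / 2) * (q : F) ∧
    ∀ t : (ZMod m)ˣ, c.σ t r = ((jacobiSym ((t : ZMod m).val : ℤ) q : ℤ) : F) * r := by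
  classical
  obtain ⟨k, hk⟩ := hqm
  have hm0 : 0 < m := Nat.pos_of_ne_zero (NeZero.ne m)
  have : NeZero q := ⟨hq.out.ne_zero⟩
  set ζ : F := c.z ^ k with hζ
  have hprim : IsPrimitiveRoot ζ q := c.prim.pow hm0 (by rw [hk, mul_comm])
  have hchar : ringChar (ZMod q) ≠ 2 := by
    rw [ZMod.ringChar_zmod_n]
    rintro rfl
    omega
  set χ : MulChar (ZMod q) F := (quadraticChar (ZMod q)).ringHomComp (Int.castRingHom F) with hχ
  set ψ : AddChar (ZMod q) F := AddChar.zmodChar q hprim.pow_eq_one with hψ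
  have hψp : ψ.IsPrimitive := AddChar.zmodChar_primitive_of_primitive_root q hprim
  have hχ1 : χ ≠ 1 :=
    (MulChar.ringHomComp_ne_one_iff (Int.cast_injective)).2 (quadraticChar_ne_one hchar)
  have hχ2 : χ.IsQuadratic := (quadraticChar_isQuadratic (ZMod q)).comp _
  have hχa : ∀ a, χ a = ((quadraticChar (ZMod q) a : ℤ) : F) := fun a => rfl
  refine ⟨gaussSum χ ψ, ?_, ?_⟩
  · rw [gaussSum_sq hχ1 hχ2 hψp, ZMod.card, hχa, quadraticChar_neg_one hchar, ZMod.card,
      ZMod.χ₄_eq_neg_one_pow hq2]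
    push_cast
    ring
  · intro t
    have hcop : Nat.Coprime (t : ZMod m).val q :=
      (ZMod.val_coe_unit_coprime t).coprime_dvd_right ⟨k, hk⟩
    set u : (ZMod q)ˣ := ZMod.unitOfCoprime _ hcop with hu
    have huv : (u : ZMod q) = ((t : ZMod m).val : ZMod q) := ZMod.coe_unitOfCoprime _ hcop
    have h1 : c.σ t (gaussSum χ ψ) = gaussSum χ (AddChar.mulShift ψ u) := by
      unfold gaussSum
      rw [map_sum]
      refine Finset.sum_congr rfl fun a _ => ?_
      rw [map_mul, AddChar.mulShift_apply, hχa, map_intCast]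
      congr 1
      have h2 : ψ a = ζ ^ a.val := AddChar.zmodChar_apply hprim.pow_eq_one a
      have h3 : (u : ZMod q) * a = (((t : ZMod m).val * a.val : ℕ) : ZMod q) := by
        rw [huv]
        push_cast
        rw [ZMod.natCast_zmod_val a]
      have h4 : ψ ((u : ZMod q) * a) = ζ ^ ((t : ZMod m).val * a.val) := by
        rw [h3]
        exact AddChar.zmodChar_apply' hprim.pow_eq_one _
      rw [h2, h4, hζ, map_pow, map_pow, c.σ_z]
      rw [← pow_mul, ← pow_mul, ← pow_mul]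
      congr 1
      ring
    have h2 := gaussSum_mulShift χ ψ u
    have h3 : χ u = ((jacobiSym ((t : ZMod m).val : ℤ) q : ℤ) : F) := by
      rw [hχa, ← jacobiSym.legendreSym.to_jacobiSym, legendreSym, huv, Int.cast_natCast]
    have h4 : χ u * χ u = 1 := by
      rw [hχa, ← Int.cast_mul, ← pow_two, quadraticChar_sq_one (Units.ne_zero u), Int.cast_one]
    rw [h1, ← h3]
    calc gaussSum χ (AddChar.mulShift ψ u)
        = (χ u * χ u) * gaussSum χ (AddChar.mulShift ψ u) := by rw [h4, one_mul]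
      _ = χ u * (χ u * gaussSum χ (AddChar.mulShift ψ u)) := by ring
      _ = χ u * gaussSum χ ψ := by rw [h2]

theorem neg_one_mul_odd {a b : ℕ} (ha : a % 2 = 1) (hb : b % 2 = 1) :
    ((-1 : ℤ)) ^ (a * b / 2) = (-1) ^ (a / 2) * (-1) ^ (b / 2) := by
  rw [← ZMod.χ₄_eq_neg_one_pow ha, ← ZMod.χ₄_eq_neg_one_pow hb,
    ← ZMod.χ₄_eq_neg_one_pow (by rw [Nat.mul_mod, ha, hb]), Nat.cast_mul, map_mul]

theorem t_GS : S_GS := by
  intro e
  induction e using Nat.strong_induction_on with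
  | _ e ih =>
  intro he hsq m _ hem F _ _ c
  rcases Nat.lt_or_ge 1 e with h1 | h1
  · -- a prime factor
    have hq := Nat.minFac_prime h1.ne'
    set q := e.minFac with hqdef
    obtain ⟨e', he'⟩ : q ∣ e := Nat.minFac_dvd e
    have hodd : q % 2 = 1 ∧ e' % 2 = 1 := by
      rw [he', Nat.odd_mul, Nat.odd_iff, Nat.odd_iff] at he
      exact he
    have he'0 : 0 < e' := by omega
    have hlt : e' < e := by
      rw [he']
      exact lt_mul_left he'0 hq.one_lt
    have hsq' : Squarefree e' := hsq.squarefree_of_dvd ⟨q, by rw [he', mul_comm]⟩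
    obtain ⟨r', hr'1, hr'2⟩ := ih e' hlt (Nat.odd_iff.2 hodd.2) hsq' m
      ((Dvd.intro_left q he'.symm).trans hem) F c
    have : Fact q.Prime := ⟨hq⟩
    obtain ⟨r, hr1, hr2⟩ := gs_prime q hodd.1 m ((Nat.minFac_dvd e).trans hem) F c
    refine ⟨r * r', ?_, ?_⟩
    · have h2 := neg_one_mul_odd hodd.1 hodd.2
      have h3 : (((-1 : ℤ) ^ (q * e' / 2) : ℤ) : F) =
        (((-1) ^ (q / 2) * (-1) ^ (e' / 2) : ℤ) : F) := by rw [h2]
      push_cast at h3
      rw [mul_pow, hr1, hr'1, he', h3]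
      push_cast
      ring
    · intro t
      rw [map_mul, hr2, hr'2, he', jacobiSym.mul_right' _ hq.ne_zero he'0.ne']
      push_cast
      ring
  · have he1 : e = 1 := by
      obtain ⟨w, hw⟩ := he
      omega
    subst he1
    refine ⟨1, by simp, fun t => by simp⟩

end Pool.Agent.K3h73.RQ
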