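import Pool.Agent.K3h44.RQ.Stm

/-!
# RQ brick SQRT: the square root of `d` in a cyclotomic field and its conjugates
-/

set_option autoImplicit false

namespace Pool.Agent.K3h73.RQ

open Pool.Agent.K3h44.RQ NumberField

theorem odd_val {m : ℕ} (h2 : 2 ∣ m) (t : (ZMod m)ˣ) : Odd (t : ZMod m).val :=
  Nat.coprime_two_right.1 ((ZMod.val_coe_unit_coprime t).coprime_dvd_right h2)

/-- the square root of an odd number `e`, `4 e ∣ m` -/
theorem sqrt_odd (h : S_GS) (e : ℕ) (he : Odd e) (hsq : Squarefree e) (m : ℕ) [NeZero m]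
    (hem : 4 * e ∣ m) (F : Type) [Field F] [NumberField F] (c : CycM m F) : ∃ r : F,
    r ^ 2 = (e : F) ∧
    ∀ t : (ZMod m)ˣ, c.σ t r = ((jacobiSym (e : ℤ) (t : ZMod m).val : ℤ) : F) * r := by
  have hm0 : 0 < m := Nat.pos_of_ne_zero (NeZero.ne m)
  have h4 : 4 ∣ m := (Dvd.intro e rfl).trans hem
  have h2 : 2 ∣ m := (by norm_num : 2 ∣ 4).trans h4
  obtain ⟨G, hG1, hG2⟩ := h e he hsq m ((Dvd.intro_left 4 rfl).trans hem) F c
  rcases Nat.odd_mod_four_iff.1 (Nat.odd_iff.1 he) with h1 | h3
  · refine ⟨G, ?_, fun t => ?_⟩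
    · have h5 : (((-1 : ℤ) ^ (e / 2) : ℤ) : F) = ((1 : ℤ) : F) := by
        rw [ZMod.neg_one_pow_div_two_of_one_mod_four h1]
      push_cast at h5
      rw [hG1, h5, one_mul]
    · rw [hG2, jacobiSym.quadratic_reciprocity_one_mod_four h1 (odd_val h2 t)]
  · obtain ⟨k, hk⟩ := h4
    have hprim : IsPrimitiveRoot (c.z ^ k) 4 := c.prim.pow hm0 (by rw [hk, mul_comm])
    set i : F := c.z ^ k with hi
    have hi2 : i ^ 2 = -1 := by
      have h5 : IsPrimitiveRoot (i ^ 2) 2 := hprim.pow (by norm_num) (by norm_num)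
      exact h5.eq_neg_one_of_two_right
    refine ⟨i * G, ?_, fun t => ?_⟩
    · have h5 : (((-1 : ℤ) ^ (e / 2) : ℤ) : F) = ((-1 : ℤ) : F) := by
        rw [ZMod.neg_one_pow_div_two_of_three_mod_four h3]
      push_cast at h5
      rw [mul_pow, hi2, hG1, h5]
      ring
    · have hodd := odd_val h2 t
      have h6 : c.σ t i = (-1) ^ ((t : ZMod m).val / 2) * i := by
        rw [hi, map_pow, c.σ_z, ← pow_mul, mul_comm, pow_mul, ← hi]
        conv_lhs => rw [← Nat.div_add_mod (t : ZMod m).val 2, Nat.odd_iff.1 hodd]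
        rw [pow_succ, pow_mul, hi2]
      have h7 : jacobiSym (e : ℤ) (t : ZMod m).val =
          (-1) ^ ((t : ZMod m).val / 2) * jacobiSym ((t : ZMod m).val : ℤ) e := by
        rw [jacobiSym.quadratic_reciprocity he hodd, pow_mul,
          ZMod.neg_one_pow_div_two_of_three_mod_four h3]
      rw [map_mul, h6, hG2, h7]
      push_cast
      ring

theorem t_SQRT (h : S_GS) : S_SQRT := by
  intro d hd hsq m _ hdm F _ _ c
  have hm0 : 0 < m := Nat.pos_of_ne_zero (NeZero.ne m)
  by_cases h1 : d % 4 = 1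
  · unfold dsc at hdm
    rw [if_pos h1] at hdm
    obtain ⟨G, hG1, hG2⟩ := h d (Nat.odd_iff.2 (by omega)) hsq m hdm F c
    refine ⟨G, ?_, fun t => ?_⟩
    · have h5 : (((-1 : ℤ) ^ (d / 2) : ℤ) : F) = ((1 : ℤ) : F) := by
        rw [ZMod.neg_one_pow_div_two_of_one_mod_four h1]
      push_cast at h5
      rw [hG1, h5, one_mul]
    · rw [hG2]
      unfold chi
      rw [if_pos h1]
  · unfold dsc at hdm
    rw [if_neg h1] at hdm
    unfold chi
    simp only [if_neg h1]
    by_cases h3 : d % 2 = 1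
    · exact sqrt_odd h d (Nat.odd_iff.2 h3) hsq m hdm F c
    · obtain ⟨e, he⟩ : 2 ∣ d := Nat.dvd_of_mod_eq_zero (by omega)
      have heo : Odd e := by
        rw [← Nat.not_even_iff_odd]
        rintro ⟨f, hf⟩
        have h4 : 2 * 2 ∣ d := ⟨f, by rw [he, hf]; ring⟩
        have h5 := hsq 2 h4
        rw [Nat.isUnit_iff] at h5
        omega
      have hsq' : Squarefree e := hsq.squarefree_of_dvd ⟨2, by rw [he, mul_comm]⟩
      have h8 : 8 ∣ m := dvd_trans (Dvd.intro e (by rw [he]; ring)) hdm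
      have h2 : 2 ∣ m := (by norm_num : 2 ∣ 8).trans h8
      obtain ⟨G, hG1, hG2⟩ := sqrt_odd h e heo hsq' m
        (dvd_trans (Dvd.intro 2 (by rw [he]; ring)) hdm) F c
      obtain ⟨k, hk⟩ := h8
      have hprim : IsPrimitiveRoot (c.z ^ k) 8 := c.prim.pow hm0 (by rw [hk, mul_comm])
      set w : F := c.z ^ k with hw
      have hw4 : w ^ 4 = -1 := by
        have h5 : IsPrimitiveRoot (w ^ 4) 2 := hprim.pow (by norm_num) (by norm_num)
        exact h5.eq_neg_one_of_two_right
      refine ⟨(w - w ^ 3) * G, ?_, fun t => ?_⟩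
      · rw [mul_pow, hG1, he]
        push_cast
        have h5 : (w - w ^ 3) ^ 2 = 2 := by
          linear_combination (w ^ 2 - 2) * hw4
        rw [h5]
      · have hodd := odd_val h2 t
        have h6 : c.σ t w = w ^ (t : ZMod m).val := by
          rw [hw, map_pow, c.σ_z, ← pow_mul, ← pow_mul, mul_comm]
        have h7 : c.σ t (w - w ^ 3) =
            ((ZMod.χ₈ ((t : ZMod m).val : ZMod 8) : ℤ) : F) * (w - w ^ 3) := by
          rw [map_sub, map_pow (c.σ t) w 3, h6, ZMod.χ₈_nat_eq_if_mod_eight]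
          have hmod := Nat.div_add_mod (t : ZMod m).val 8
          have hpow : w ^ (t : ZMod m).val = w ^ ((t : ZMod m).val % 8) := by
            conv_lhs => rw [← hmod]
            have h9 : w ^ 8 = 1 := hprim.pow_eq_one
            rw [pow_add, pow_mul, h9, one_pow, one_mul]
          rw [hpow]
          have h10 : (t : ZMod m).val % 2 = 1 := Nat.odd_iff.1 hodd
          have h11 : (t : ZMod m).val % 8 = 1 ∨ (t : ZMod m).val % 8 = 3 ∨
            (t : ZMod m).val % 8 = 5 ∨ (t : ZMod m).val % 8 = 7 := by omega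
          rw [if_neg (by omega)]
          rcases h11 with h | h | h | h
          · rw [h, if_pos (by omega)]
            push_cast
            ring
          · rw [h, if_neg (by omega)]
            push_cast
            linear_combination (-(w ^ 5) + w) * hw4
          · rw [h, if_neg (by omega)]
            push_cast
            linear_combination (w - w ^ 11 + w ^ 7 - w ^ 3) * hw4
          · rw [h, if_pos (by omega)]
            push_cast
            linear_combination (w ^ 3 - w ^ 17 + w ^ 13 - w ^ 9 + w ^ 5 - w) * hw4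
        rw [map_mul, h7, hG2, he]
        have h9 : jacobiSym ((2 * e : ℕ) : ℤ) (t : ZMod m).val =
            ZMod.χ₈ ((t : ZMod m).val : ZMod 8) * jacobiSym (e : ℤ) (t : ZMod m).val := by
          rw [Nat.cast_mul, jacobiSym.mul_left, Nat.cast_ofNat, jacobiSym.at_two hodd]
        rw [h9]
        push_cast
        ring

end Pool.Agent.K3h73.RQ
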